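import Mathlib

set_option autoImplicit false

open Set Topology Filter

namespace Pool.Agent.Results.MP_a2e3d9_lc.CategoryCounterexample

/-- The orbit equivalence relation of `f`: forward orbits meet. -/
def OrbitRel {X : Type*} (f : X → X) (x y : X) : Prop :=
  ∃ m n : ℕ, f^[m] x = f^[n] y

/-- `B` meets every class of the orbit equivalence relation of `f`. -/
def IsCompleteSection {X : Type*} (f : X → X) (B : Set X) : Prop :=
  ∀ x : X, ∃ y ∈ B, OrbitRel f x y

/-- `B` is good for `f`: a forward invariant complete section on which `f` is finite-to-one. -/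
def IsGood {X : Type*} (f : X → X) (B : Set X) : Prop :=
  IsCompleteSection f B ∧ f '' B ⊆ B ∧ ∀ y : X, (f ⁻¹' {y} ∩ B).Finite

/-- Prepend the first `m` values of `t` to `z`. -/
def pre (m : ℕ) (t z : ℕ → ℕ) : ℕ → ℕ := fun j => if j < m then t j else z (j - m)

/-- Drop the first `m` values. -/
def sh (m : ℕ) (z : ℕ → ℕ) : ℕ → ℕ := fun j => z (j + m)

theorem sh_pre (m : ℕ) (t z : ℕ → ℕ) : sh m (pre m t z) = z := by
  funext j
  simp [sh, pre]

theorem pre_sh (m : ℕ) (y : ℕ → ℕ) : pre m y (sh m y) = y := by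
  funext j
  by_cases h : j < m
  · simp [pre, h]
  · simp [sh, pre, h, Nat.sub_add_cancel (Nat.le_of_not_lt h)]

theorem continuous_pre (m : ℕ) (t : ℕ → ℕ) : Continuous (pre m t) := by
  refine continuous_pi fun j => ?_
  by_cases h : j < m
  · simp only [pre, h, if_true]
    exact continuous_const
  · simp only [pre, h, if_false]
    exact continuous_apply _

theorem continuous_sh (m : ℕ) : Continuous (sh m) :=
  continuous_pi fun j => continuous_apply (j + m)

theorem isOpenMap_pre (m : ℕ) (t : ℕ → ℕ) : IsOpenMap (pre m t) := by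
  intro V hV
  have h : pre m t '' V = (⋂ j ∈ Finset.range m, {y : ℕ → ℕ | y j = t j}) ∩ sh m ⁻¹' V := by
    ext y
    constructor
    · rintro ⟨z, hz, rfl⟩
      refine ⟨?_, by rw [mem_preimage, sh_pre]; exact hz⟩
      simp only [mem_iInter, Finset.mem_range, mem_ofPred_eq]
      intro j hj
      simp [pre, hj]
    · rintro ⟨h1, h2⟩
      simp only [mem_iInter, Finset.mem_range, mem_ofPred_eq] at h1
      refine ⟨sh m y, h2, ?_⟩
      funext j
      by_cases hj : j < m
      · simp [pre, hj, h1 j hj]
      · simp [sh, pre, hj, Nat.sub_add_cancel (Nat.le_of_not_lt hj)]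
  rw [h]
  refine IsOpen.inter ?_ (hV.preimage (continuous_sh m))
  refine isOpen_biInter_finset fun j _ => ?_
  exact (isOpen_discrete {t j}).preimage (continuous_apply (A := fun _ : ℕ => ℕ) j)

theorem isOpenMap_sh (m : ℕ) : IsOpenMap (sh m) := by
  intro V hV
  have h : sh m '' V = ⋃ t : ℕ → ℕ, pre m t ⁻¹' V := by
    ext z
    simp only [mem_image, mem_iUnion, mem_preimage]
    constructor
    · rintro ⟨y, hy, rfl⟩
      exact ⟨y, by rw [pre_sh]; exact hy⟩
    · rintro ⟨t, ht⟩
      exact ⟨_, ht, sh_pre m t z⟩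
  rw [h]
  exact isOpen_iUnion fun t => hV.preimage (continuous_pre m t)

/-- The map of the counterexample: raise the level by one and shift. -/
def step : ℕ × (ℕ → ℕ) → ℕ × (ℕ → ℕ) := fun p => (p.1 + 1, sh 1 p.2)

theorem step_iterate (m n : ℕ) (z : ℕ → ℕ) : step^[m] (n, z) = (n + m, sh m z) := by
  induction m with
  | zero => rfl
  | succ m ih =>
    rw [Function.iterate_succ_apply', ih]
    refine Prod.ext ?_ ?_
    · simp [step, Nat.add_assoc]
    · funext j
      simp only [step, sh]
      congr 1
      ring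

theorem continuous_step : Continuous step := by
  refine Continuous.prodMk ?_ ((continuous_sh 1).comp continuous_snd)
  exact continuous_of_discreteTopology.comp continuous_fst

theorem not_good_of_baire {B : Set (ℕ × (ℕ → ℕ))} (hB : BaireMeasurableSet B) :
    ¬ IsGood step B := by
  rintro ⟨hsec, hinv, hfin⟩
  -- forward invariance under iterates
  have hinv' : ∀ (m n : ℕ) (z : ℕ → ℕ), (n, z) ∈ B → (n + m, sh m z) ∈ B := by
    intro m n z hz
    rw [← step_iterate]
    induction m with
    | zero => simpa using hz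
    | succ m ih =>
      rw [Function.iterate_succ_apply']
      exact hinv (mem_image_of_mem _ ih)
  -- the level sets
  have hcont : ∀ n : ℕ, Continuous (fun z : ℕ → ℕ => (n, z)) := fun n => by fun_prop
  have hopen : ∀ n : ℕ, IsOpenMap (fun z : ℕ → ℕ => (n, z)) := by
    intro n V hV
    have : (fun z : ℕ → ℕ => (n, z)) '' V = {n} ×ˢ V := by
      ext p
      constructor
      · rintro ⟨z, hz, rfl⟩
        exact ⟨rfl, hz⟩
      · rintro ⟨h1, h2⟩
        refine ⟨p.2, h2, ?_⟩
        rw [mem_singleton_iff] at h1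
        exact Prod.ext h1.symm rfl
    rw [this]
    exact (isOpen_discrete _).prod hV
  set L : ℕ → Set (ℕ → ℕ) := fun n => (fun z : ℕ → ℕ => (n, z)) ⁻¹' B with hL
  have hLB : ∀ n, BaireMeasurableSet (L n) := fun n => hB.preimage (hcont n) (hopen n)
  -- every point enters `B`
  have hcover : ∀ z : ℕ → ℕ, ∃ m, sh m z ∈ L m := by
    intro z
    obtain ⟨⟨n', y⟩, hy, m, n, hmn⟩ := hsec (0, z)
    refine ⟨m, ?_⟩
    have h1 := hinv' n n' y hy
    rw [step_iterate, step_iterate] at hmn
    rw [← hmn, Nat.zero_add] at h1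
    exact h1
  -- some level set is nonmeager
  have hnm : ∃ m, ¬ IsMeagre (L m) := by
    by_contra hcon
    push Not at hcon
    have h1 : IsMeagre (⋃ m, sh m ⁻¹' (L m)) :=
      isMeagre_iUnion fun m => (hcon m).preimage_of_isOpenMap (continuous_sh m) (isOpenMap_sh m)
    have h2 : (⋃ m, sh m ⁻¹' (L m)) = univ := by
      ext z
      simp only [mem_iUnion, mem_preimage, mem_univ, iff_true]
      exact hcover z
    rw [h2] at h1
    have h3 : (∅ : Set (ℕ → ℕ)) ∈ residual (ℕ → ℕ) := by
      have := h1
      rw [IsMeagre, compl_univ] at this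
      exact this
    have h4 := dense_of_mem_residual h3
    rw [dense_iff_closure_eq, closure_empty] at h4
    exact (Set.empty_ne_univ) h4
  obtain ⟨m, hm⟩ := hnm
  obtain ⟨U, hU, hLU⟩ := (hLB m).residualEq_isOpen
  have hUne : U.Nonempty := by
    by_contra hcon
    rw [not_nonempty_iff_eq_empty] at hcon
    subst hcon
    apply hm
    rw [IsMeagre]
    filter_upwards [eventuallyEq_set.mp hLU] with z hz
    intro h
    exact (hz.mp h)
  obtain ⟨t, ht⟩ := hUne
  -- a basic neighbourhood of `t` inside `U`
  obtain ⟨k, hk⟩ : ∃ k : ℕ, ∀ z : ℕ → ℕ, pre k t z ∈ U := by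
    rw [isOpen_pi_iff] at hU
    obtain ⟨I, u, hu, hIU⟩ := hU t ht
    refine ⟨I.sup id + 1, fun z => hIU ?_⟩
    intro j hj
    have hj' : j < I.sup id + 1 := Nat.lt_succ_of_le (Finset.le_sup (f := id) hj)
    simp only [pre, hj', if_true]
    exact (hu j hj).2
  -- hence the level `m + k` is comeager
  have hres : L (m + k) ∈ residual (ℕ → ℕ) := by
    have h1 := (tendsto_residual_of_isOpenMap (continuous_pre k t) (isOpenMap_pre k t)).eventually
      (eventuallyEq_set.mp hLU)
    filter_upwards [h1] with z hz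
    have h2 : pre k t z ∈ L m := hz.mpr (hk z)
    have h3 := hinv' k m (pre k t z) h2
    rw [sh_pre] at h3
    exact h3
  have hall : ∀ᶠ z in residual (ℕ → ℕ), ∀ i : ℕ, pre 1 (fun _ => i) z ∈ L (m + k) := by
    rw [eventually_countable_forall]
    intro i
    exact (tendsto_residual_of_isOpenMap (continuous_pre 1 _) (isOpenMap_pre 1 _)).eventually hres
  obtain ⟨z, hz⟩ : ∃ z, ∀ i : ℕ, pre 1 (fun _ => i) z ∈ L (m + k) := by
    have h4 := dense_of_mem_residual hall
    exact h4.nonempty
  refine (hfin (m + k + 1, z)).not_infinite ?_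
  refine Set.infinite_of_injective_forall_mem
    (f := fun i : ℕ => ((m + k, pre 1 (fun _ => i) z) : ℕ × (ℕ → ℕ))) ?_ ?_
  · intro i j hij
    have h5 := congrFun (congrArg Prod.snd hij) 0
    simpa [pre] using h5
  · intro i
    refine ⟨?_, hz i⟩
    simp [step, sh_pre]

/-- There is a Polish space `X` and a Borel map `f : X → X` which is countable-to-one, aperiodic and
well founded, such that no Borel set and, more generally, no set with the property of Baire is good
for `f`. -/
theorem result :
    ∃ (X : Type) (_ : TopologicalSpace X) (_ : PolishSpace X) (_ : MeasurableSpace X)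
      (_ : BorelSpace X) (f : X → X),
      Measurable f ∧
      (∀ y : X, (f ⁻¹' {y}).Countable) ∧
      (∀ x : X, ∀ n : ℕ, 1 ≤ n → f^[n] x ≠ x) ∧
      (¬ ∃ x : ℕ → X, ∀ i : ℕ, f (x (i + 1)) = x i) ∧
      (∀ B : Set X, MeasurableSet B → ¬ IsGood f B) ∧
      (∀ B : Set X, BaireMeasurableSet B → ¬ IsGood f B) := by
  refine ⟨ℕ × (ℕ → ℕ), inferInstance, inferInstance, inferInstance, inferInstance, step,
    continuous_step.measurable, ?_, ?_, ?_, fun B hB => not_good_of_baire hB.baireMeasurableSet,
    fun B hB => not_good_of_baire hB⟩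
  · rintro ⟨n, z⟩
    have h : step ⁻¹' {(n, z)} ⊆ range (fun i : ℕ => ((n - 1, pre 1 (fun _ => i) z) : ℕ × (ℕ → ℕ))) := by
      rintro ⟨n', y⟩ hy
      have h1 : n' + 1 = n := congrArg Prod.fst hy
      have h2 : sh 1 y = z := congrArg Prod.snd hy
      refine ⟨y 0, ?_⟩
      refine Prod.ext ?_ ?_
      · simp [← h1]
      · rw [← h2]
        funext j
        by_cases hj : j < 1
        · simp [pre, Nat.lt_one_iff.mp hj]
        · simp [sh, pre, hj, Nat.sub_add_cancel (Nat.le_of_not_lt hj)]
    exact (countable_range _).mono h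
  · rintro ⟨n, z⟩ m hm h
    rw [step_iterate] at h
    have h1 := congrArg Prod.fst h
    simp only at h1
    omega
  · rintro ⟨x, hx⟩
    have h : ∀ i : ℕ, (x i).1 + i = (x 0).1 := by
      intro i
      induction i with
      | zero => rfl
      | succ i ih =>
        have h1 : (x (i + 1)).1 + 1 = (x i).1 := congrArg Prod.fst (hx i)
        omega
    have h2 := h ((x 0).1 + 1)
    omega

end Pool.Agent.Results.MP_a2e3d9_lc.CategoryCounterexample
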